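import Mathlib
import Pool.Agent.N753.DR.AllDR

/-!
# The truncated Vojta inequality for the points of curves above points of degree `r` of the line:
# one exceptional set for all number fields, all curves, all divisors, with algebraic branch points

Let `K` be a number field, `n = [K : ℚ]` and `r ≥ 1`. The points of degree `r` over `K` of the line
(different from `∞`) are given by their minimal polynomials over `K`; about `B ^ (n r (r + 1))` of
them have absolute height at most `log B` (Masser and Vaaler).

Let `k` be a number field containing `K`, `C` a smooth projective curve over `k`, `t : C → ℙ¹` a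
finite map of degree `N` over `k` which is unramified outside the fibres over finitely many different
points `a_1, …, a_q` of `k`, and let `D` be a reduced effective divisor on `C` contained in these
fibres. (Every curve and every reduced divisor has such maps; `a_j ≠ ∞` may be supposed.) Let `A` be
the ring of the functions on `C` with poles only over `t = ∞`: a Dedekind domain, finite over `k[t]`.
If `F_j` is the ideal of the points over `a_j` which are not points of `D`, then
`2 + deg (K_C + D) / N = q - (∑_j dim (A / F_j)) / N`.

We prove that there is ONE set `E` of points of degree `r` over `K` of the line, which contains at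
most `2 B ^ (n r (r + 1)) exp (-√(log B))` points of absolute height at most `log B`, such that for
all number fields `k` containing `K`, all coordinates `x` on the line over `K`, all curves `C` over
`k`, all maps `t`, all points `a_j`, of degree at most `2 r + 1` over `K`, all divisors `D`, all finite
sets `S` of primes and all `ε > 0`, with a constant `c` depending on these data: all points `P` of
`C` which lie above a point of degree `r` over `K` of the line not in `E`, with values in ANY number
field `L` containing `k`, satisfy
`(2 + deg (K_C + D) / N - ε) h(t(P)) + d(k(t(P))) ≤ N_S^{(1)}(D, P) + d(L) + c`.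
This is the inequality `h_{K_C + D}(P) ≤ N_S^{(1)}(D, P) + ε h_A(P) + d(P) + O(1)` of the conjecture
(if the height of a divisor of degree `d` on `C` is replaced by `d h(t(P)) / N`), with the additional
term `2 h(t(P)) + d(k(t(P)))` on the left hand side. For given `C` and `D`, the inequality is proved
for one hundred percent of the points of degree `r` over `K` of the line, for all large `r`.

Proof. The resultant of the minimal polynomial over `K` of `a_j` and a polynomial of degree `r` with
indeterminate coefficients is an incomplete norm form of degree `d ≤ 2 r + 1` in `r + 1` variables.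
Its values are nearly squarefree outside a set of power saving size: the squares of the large primes
are treated by the geometry of numbers, for many lattices at once.
-/

set_option autoImplicit false

namespace Pool.Agent.Results.MP_44a246_nt.AlgebraicBranchPoints

open Polynomial IsDedekindDomain NumberField Module

/-- The function `t` on the curve with the ring of functions `A`. -/
noncomputable def coord (k A : Type) [Field k] [CommRing A] [Algebra k[X] A] : A :=
  algebraMap k[X] A X

/-- The ideal of the reduced fibre over `a`. -/
noncomputable def fibre (k A : Type) [Field k] [CommRing A] [Algebra k A] [Algebra k[X] A]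
    (a : k) : Ideal A :=
  (Ideal.span {coord k A - algebraMap k A a}).radical

/-- The absolute logarithmic height. -/
noncomputable def height {L : Type} [Field L] [NumberField L] (x : L) : ℝ :=
  Height.logHeight₁ x / finrank ℚ L

/-- The (absolute) logarithmic discriminant `d(L) = log |disc L| / [L : ℚ]`. -/
noncomputable def logDisc (L : Type) [Field L] [NumberField L] : ℝ :=
  Real.log |(discr L : ℝ)| / finrank ℚ L

/-- The (absolute) logarithmic discriminant `d(k(x))` of the field `k(x)` generated by `x`. -/
noncomputable def logDiscOf (k : Type) {L : Type} [Field k] [NumberField k] [Field L]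
    [NumberField L] [Algebra k L] (x : L) : ℝ :=
  logDisc (IntermediateField.adjoin k {x})

/-- The value of the fractional linear transformation `g` at `x`. -/
noncomputable def moebius {K L : Type} [Field K] [Field L] [Algebra K L]
    (g : Matrix (Fin 2) (Fin 2) K) (x : L) : L :=
  (algebraMap K L (g 0 0) * x + algebraMap K L (g 0 1)) /
    (algebraMap K L (g 1 0) * x + algebraMap K L (g 1 1))

/-- The points of degree `r` over `K` and of absolute height at most `log B` of the line, given by
their minimal polynomials. -/
def points (K : Type) [Field K] [NumberField K] (r : ℕ) (B : ℝ) : Set K[X] :=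
  {p | p.natDegree = r ∧ ∃ (M : Type) (_ : Field M) (_ : NumberField M) (_ : Algebra K M) (x : M),
    minpoly K x = p ∧ height x ≤ Real.log B}

/-- `q - (∑_j dim (A / F_j)) / N`, where `N` is the rank of `A` over `k[t]`: the number
`2 + deg (K_C + D) / N` for the curve `C`. -/
noncomputable def degree (k : Type) {A : Type} [Field k] [CommRing A] [Algebra k A]
    [Algebra k[X] A] {q : ℕ} (F : Fin q → Ideal A) : ℝ :=
  q - (∑ j, (finrank k (A ⧸ F j) : ℝ)) / finrank k[X] A

open Classical in
/-- The (absolute) truncated counting function `N_S^{(1)}(D, P)`: the sum of `log N(w) / [L : ℚ]`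
over the primes `w` of `L`, not above primes in `S`, at which `P` meets `D`: that is,
`|t(P)|_w ≤ 1` and for some `j` one has `|t(P) - a_j|_w < 1` and `|y_{j l}(P)|_w < 1` for all `l`,
where `y_{j 1} = … = y_{j u_j} = 0` are the equations of the part of `D` over `a_j`. Every such
prime is counted once. -/
noncomputable def truncated {k A : Type} [Field k] [NumberField k] [CommRing A] [Algebra k A]
    [Algebra k[X] A] {q : ℕ} (S : Finset (HeightOneSpectrum (𝓞 k))) (a : Fin q → k)
    (u : Fin q → ℕ) (y : ∀ j, Fin (u j) → A) {L : Type} [Field L] [NumberField L] [Algebra k L]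
    (P : A →ₐ[k] L) : ℝ :=
  (∑ᶠ w : HeightOneSpectrum (𝓞 L),
      if (∀ p ∈ S, w.asIdeal.comap (algebraMap (𝓞 k) (𝓞 L)) ≠ p.asIdeal) ∧
        w.valuation L (P (coord k A)) ≤ 1 ∧
        ∃ j, w.valuation L (P (coord k A) - algebraMap k L (a j)) < 1 ∧
          ∀ l, w.valuation L (P (y j l)) < 1
      then Real.log (Ideal.absNorm w.asIdeal) else 0) / finrank ℚ L

section Aux

open Pool.Agent.N753.DR Height

theorem points_at {K : Type} [Field K] [NumberField K] {r : ℕ} {B : ℝ} {p : K[X]}
    (hp : p ∈ points K r B) : AtH r ((finrank ℚ K : ℝ) * r * Real.log B) p := by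
  obtain ⟨hdeg, M, _, _, _, x, hx, hh⟩ := hp
  have hfd : FiniteDimensional K M := FiniteDimensional.right ℚ K M
  have hint : IsIntegral K x := IsIntegral.of_finite K x
  have h1 : (minpoly K (IntermediateField.AdjoinSimple.gen K x)).natDegree =
      finrank K (IntermediateField.adjoin K {x}) := by
    rw [IntermediateField.minpoly_gen, IntermediateField.adjoin.finrank hint]
  have h2 : minpoly K (IntermediateField.AdjoinSimple.gen K x) = p := by
    rw [IntermediateField.minpoly_gen, hx]
  have h3 : finrank K (IntermediateField.adjoin K {x}) = r := by rw [← h1, h2, hdeg]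
  refine ⟨IntermediateField.adjoin K {x}, inferInstance, inferInstance, inferInstance,
    IntermediateField.AdjoinSimple.gen K x, h3, by rw [h2, hdeg], h2, ?_⟩
  have h4 := gen_ht (k := K) x
  have h5 : (0 : ℝ) < finrank ℚ M := by exact_mod_cast finrank_pos (R := ℚ) (M := M)
  have h6 : (finrank ℚ M : ℝ) = finrank ℚ K * r * finrank (IntermediateField.adjoin K {x}) M := by
    rw [← h3]
    have e1 := finrank_mul_finrank ℚ K M
    have e2 := finrank_mul_finrank K (IntermediateField.adjoin K {x}) M
    rw [← e1, ← e2]
    push_cast
    ring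
  have h7 : (0 : ℝ) < finrank (IntermediateField.adjoin K {x}) M := by
    have : FiniteDimensional (IntermediateField.adjoin K {x}) M :=
      FiniteDimensional.right ℚ (IntermediateField.adjoin K {x}) M
    exact_mod_cast finrank_pos (R := IntermediateField.adjoin K {x}) (M := M)
  unfold height at hh
  rw [div_le_iff₀ h5, h4, h6] at hh
  refine le_of_mul_le_mul_left ?_ h7
  linarith

/-- a natural number in all primes of a finite set -/
theorem exists_nat {k : Type} [Field k] [NumberField k] (S : Finset (HeightOneSpectrum (𝓞 k))) :
    ∃ b : ℕ, b ≠ 0 ∧ ∀ p ∈ S, (b : 𝓞 k) ∈ p.asIdeal := by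
  classical
  refine ⟨∏ p ∈ S, Ideal.absNorm p.asIdeal, Finset.prod_ne_zero_iff.2 fun p _ h =>
    p.ne_bot (Ideal.absNorm_eq_zero_iff.1 h), ?_⟩
  intro p hp
  have h1 : ((Ideal.absNorm p.asIdeal : ℕ) : 𝓞 k) ∈ p.asIdeal := Ideal.absNorm_mem _
  obtain ⟨c, hc⟩ := Finset.dvd_prod_of_mem (fun p : HeightOneSpectrum (𝓞 k) =>
    Ideal.absNorm p.asIdeal) hp
  rw [hc]
  push_cast
  exact Ideal.mul_mem_right _ _ h1

theorem truncated_ge {k A : Type} [Field k] [NumberField k] [CommRing A] [Algebra k A]
    [Algebra k[X] A] {q : ℕ} (S : Finset (HeightOneSpectrum (𝓞 k))) (a : Fin q → k)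
    (u : Fin q → ℕ) (y : ∀ j, Fin (u j) → A) {L : Type} [Field L] [NumberField L] [Algebra k L]
    (P : A →ₐ[k] L) (b : ℕ) (hb : ∀ p ∈ S, (b : 𝓞 k) ∈ p.asIdeal)
    (hP : ∀ j, P (coord k A) ≠ algebraMap k L (a j)) :
    Pool.Agent.W223.CV.cc {b} (fun v : HeightOneSpectrum (𝓞 L) =>
            v.valuation L (P (coord k A)) ≤ 1 ∧
            ∃ j, v.valuation L (P (coord k A) - algebraMap k L (a j)) < 1 ∧
              ∀ i, v.valuation L (P (y j i)) < 1) ≤ finrank ℚ L * truncated S a u y P := by
  classical
  have h5 : (0 : ℝ) < finrank ℚ L := by exact_mod_cast finrank_pos (R := ℚ) (M := L)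
  unfold truncated
  rw [mul_div_cancel₀ _ h5.ne']
  have hfin : {v : HeightOneSpectrum (𝓞 L) | v.valuation L (P (coord k A)) ≤ 1 ∧
      ∃ j, v.valuation L (P (coord k A) - algebraMap k L (a j)) < 1 ∧
        ∀ i, v.valuation L (P (y j i)) < 1}.Finite := by
    refine (Set.finite_iUnion fun j =>
      Pool.Agent.W223.AC.val_finite _ (sub_ne_zero.2 (hP j))).subset ?_
    rintro v ⟨-, j, hv, -⟩
    exact Set.mem_iUnion.mpr ⟨j, hv⟩
  unfold Pool.Agent.W223.CV.cc
  refine finsum_le_finsum' (Pool.Agent.W223.CV.ct_support _ hfin) ?_ ?_
  · refine hfin.subset fun v hv => ?_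
    rw [Function.mem_support] at hv
    by_contra hcon
    exact hv (if_neg fun h => hcon h.2)
  · intro v
    by_cases h1 : (∀ p ∈ ({b} : Finset ℕ), (p : 𝓞 L) ∉ v.asIdeal) ∧
        (v.valuation L (P (coord k A)) ≤ 1 ∧
      ∃ j, v.valuation L (P (coord k A) - algebraMap k L (a j)) < 1 ∧
        ∀ i, v.valuation L (P (y j i)) < 1)
    · beta_reduce
      rw [Pool.Agent.W223.CV.ct_pos h1, if_pos]
      refine ⟨?_, h1.2⟩
      intro p hp hv
      apply h1.1 b (Finset.mem_singleton_self b)
      have h2 := hb p hp
      rw [← hv, Ideal.mem_comap, map_natCast] at h2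
      exact h2
    · beta_reduce
      rw [Pool.Agent.W223.CV.ct_neg h1]
      split_ifs
      · exact Real.log_natCast_nonneg _
      · exact le_rfl

theorem count_le {n r : ℕ} (hn : 1 ≤ n) (hr : 1 ≤ r) {B : ℝ} (hB : 1 ≤ B) :
    2 * Real.exp ((r + 1) * ((n : ℝ) * r * Real.log B) - √((n : ℝ) * r * Real.log B)) ≤
      2 * B ^ ((n : ℝ) * r * (r + 1)) * Real.exp (-√(Real.log B)) := by
  have h0 : 0 < B := by linarith
  have h1 := Real.log_nonneg hB
  rw [mul_assoc 2 (B ^ _) _, Real.rpow_def_of_pos h0, ← Real.exp_add]
  refine mul_le_mul_of_nonneg_left (Real.exp_le_exp.2 ?_) (by norm_num)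
  have h2 : √(Real.log B) ≤ √((n : ℝ) * r * Real.log B) := by
    apply Real.sqrt_le_sqrt
    have h3 : (1 : ℝ) ≤ n := by exact_mod_cast hn
    have h4 : (1 : ℝ) ≤ r := by exact_mod_cast hr
    have h5 : (1 : ℝ) ≤ (n : ℝ) * r := one_le_mul_of_one_le_of_one_le h3 h4
    nlinarith
  nlinarith

theorem main (hVk : StmVkG) (K : Type) [Field K] [NumberField K] (r : ℕ) (hr : 1 ≤ r) :
    ∃ E : Set K[X],
      (∀ B : ℝ, 1 ≤ B → (E ∩ points K r B).Finite ∧
        ((E ∩ points K r B).ncard : ℝ) ≤
          2 * B ^ ((finrank ℚ K : ℝ) * r * (r + 1)) * Real.exp (-√(Real.log B))) ∧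
      ∀ (k : Type) [Field k] [NumberField k] [Algebra K k] (q : ℕ) (a : Fin q → k), 0 < q →
        Function.Injective a → (∀ j, (minpoly K (a j)).natDegree ≤ 2 * r + 1) →
        ∀ g : Matrix (Fin 2) (Fin 2) K, g.det ≠ 0 →
        ∀ (A : Type) [CommRing A] [IsDedekindDomain A] [Algebra k A] [Algebra k[X] A]
          [IsScalarTower k k[X] A] [Module.Finite k[X] A] [FaithfulSMul k[X] A]
          (u : Fin q → ℕ) (y : ∀ j, Fin (u j) → A) (F : Fin q → Ideal A), (∀ j, F j ≠ ⊥) →
          (∀ j l, ∀ f ∈ F j, y j l * f ∈ fibre k A (a j)) →
        ∀ (S : Finset (HeightOneSpectrum (𝓞 k))) (ε : ℝ), 0 < ε → ∃ c : ℝ,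
          ∀ (L : Type) [Field L] [NumberField L] [Algebra K L] [Algebra k L]
            [IsScalarTower K k L] (P : A →ₐ[k] L),
            algebraMap K L (g 1 0) * P (coord k A) + algebraMap K L (g 1 1) ≠ 0 →
            (minpoly K (moebius g (P (coord k A)))).natDegree = r →
            minpoly K (moebius g (P (coord k A))) ∉ E →
            (∀ j, P (coord k A) ≠ algebraMap k L (a j)) →
            (degree k F - ε) * height (P (coord k A)) + logDiscOf k (P (coord k A)) ≤
              truncated S a u y P + logDisc L + c := by
  classical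
  obtain ⟨E, hE1, hE2⟩ := hVk K r hr
  have hn : 1 ≤ finrank ℚ K := finrank_pos
  refine ⟨E, ?_, ?_⟩
  · intro B hB
    have hU : 0 ≤ (finrank ℚ K : ℝ) * r * Real.log B := by
      have := Real.log_nonneg hB
      positivity
    obtain ⟨h1, h2⟩ := hE1 _ hU
    have hsub : E ∩ points K r B ⊆
        {p | p ∈ E ∧ AtH r ((finrank ℚ K : ℝ) * r * Real.log B) p} :=
      fun p hp => ⟨hp.1, points_at hp.2⟩
    refine ⟨h1.subset hsub, le_trans ?_ (h2.trans (count_le hn hr hB))⟩
    exact_mod_cast Set.ncard_le_ncard hsub h1
  intro k _ _ _ q a hq ha hdeg g hg A _ _ _ _ _ _ _ u y F hF hyF S ε hε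
  obtain ⟨b, hb0, hb⟩ := exists_nat S
  obtain ⟨T, C, hT, hC, hstep⟩ := step k A hq a u y F hF (fun j l f hf => hyF j l f hf) {b}
    (fun p hp => by rw [Finset.mem_singleton] at hp; rw [hp]; exact hb0) (ε / 2) (half_pos hε)
  have hdet : g 0 0 * g 1 1 - g 0 1 * g 1 0 ≠ 0 := by
    rw [Matrix.det_fin_two] at hg
    exact hg
  obtain ⟨C0, hC0⟩ := hE2 k q a ha hdeg (g 0 0) (g 0 1) (g 1 0) (g 1 1) hdet T (ε / 2)
    (half_pos hε)
  refine ⟨C + max C0 0, ?_⟩
  intro L _ _ _ _ _ P hfin hdegx hxE hP
  have h1 := hstep L P (max C0 0) (le_max_right _ _) hP ?_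
  · have h2 := truncated_ge S a u y P b hb hP
    have h3 : (0 : ℝ) < finrank ℚ L := by exact_mod_cast finrank_pos (R := ℚ) (M := L)
    set t := P (coord k A) with ht
    have ht' : P (algebraMap k[X] A X) = t := rfl
    rw [ht'] at h1
    have h4 := h1.trans (add_le_add_left (add_le_add_left h2 _) _)
    have h5 : (0 : ℝ) < finrank ℚ (IntermediateField.adjoin k {t}) := by
      exact_mod_cast finrank_pos (R := ℚ) (M := IntermediateField.adjoin k {t})
    have h6 : (finrank ℚ L : ℝ) = finrank ℚ (IntermediateField.adjoin k {t}) *
        finrank (IntermediateField.adjoin k {t}) L := by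
      exact_mod_cast (finrank_mul_finrank ℚ (IntermediateField.adjoin k {t}) L).symm
    have h7 : (finrank (IntermediateField.adjoin k {t}) L : ℝ) * ldOf k t =
        finrank ℚ L * logDiscOf k t := by
      unfold logDiscOf logDisc ldOf
      rw [h6]
      field_simp
    have h8 : Height.logHeight₁ t = finrank ℚ L * height t := by
      unfold height
      field_simp
    have h9 : Real.log |(discr L : ℝ)| = finrank ℚ L * logDisc L := by
      unfold logDisc
      field_simp
    rw [h7, h8, h9] at h4
    refine le_of_mul_le_mul_left ?_ h3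
    unfold degree
    nlinarith
  · intro W hW
    set t := P (coord k A) with ht
    have ht' : P (algebraMap k[X] A X) = t := rfl
    have hgen : algebraMap (IntermediateField.adjoin k {t}) L
      (IntermediateField.AdjoinSimple.gen k t) = t := rfl
    have hinj := (algebraMap (IntermediateField.adjoin k {t}) L).injective
    have htow : IsScalarTower K (IntermediateField.adjoin k {t}) L :=
      IsScalarTower.of_algebraMap_eq fun z => by
        rw [IsScalarTower.algebraMap_apply K k (IntermediateField.adjoin k {t}),
          ← IsScalarTower.algebraMap_apply k (IntermediateField.adjoin k {t}) L,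
          ← IsScalarTower.algebraMap_apply K k L]
    have hne : algebraMap K (IntermediateField.adjoin k {t}) (g 1 0) *
        IntermediateField.AdjoinSimple.gen k t +
        algebraMap K (IntermediateField.adjoin k {t}) (g 1 1) ≠ 0 := by
      intro h
      apply hfin
      have h2 := congrArg (algebraMap (IntermediateField.adjoin k {t}) L) h
      rw [map_add, map_mul, map_zero, hgen, ← IsScalarTower.algebraMap_apply,
        ← IsScalarTower.algebraMap_apply] at h2
      exact h2
    have hmb : algebraMap (IntermediateField.adjoin k {t}) L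
        (moebius g (IntermediateField.AdjoinSimple.gen k t)) = moebius g t := by
      unfold moebius
      rw [map_div₀, map_add, map_mul, map_add, map_mul, hgen, ← IsScalarTower.algebraMap_apply,
        ← IsScalarTower.algebraMap_apply, ← IsScalarTower.algebraMap_apply,
        ← IsScalarTower.algebraMap_apply]
    have hmp : minpoly K (moebius g (IntermediateField.AdjoinSimple.gen k t)) =
        minpoly K (moebius g t) := by
      rw [← hmb, minpoly.algebraMap_eq hinj]
    have h2 := hC0 (IntermediateField.adjoin k {t}) (IntermediateField.AdjoinSimple.gen k t)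
      (moebius g (IntermediateField.AdjoinSimple.gen k t)) (gen_top t)
      (by unfold moebius; rw [div_mul_cancel₀ _ hne]) hne (by rw [hmp]; exact hdegx)
      (by rw [hmp]; exact hxE) (by
        intro j h
        apply hP j
        have h2 := congrArg (algebraMap (IntermediateField.adjoin k {t}) L) h
        rw [← IsScalarTower.algebraMap_apply] at h2
        exact h2) W (fun w h3 h4 h5 => hW w h3 h4 h5)
    exact h2.trans (add_le_add le_rfl (le_max_left C0 0))

end Aux

/-- **One exceptional set for all number fields, all curves, all divisors, all branch points of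
degree at most `2 r + 1`, all coordinates, for the points above points of degree `r`.** -/
theorem result (K : Type) [Field K] [NumberField K] (r : ℕ) (hr : 1 ≤ r) :
    ∃ E : Set K[X],
      -- the exceptional set has density zero
      (∀ B : ℝ, 1 ≤ B → (E ∩ points K r B).Finite ∧
        ((E ∩ points K r B).ncard : ℝ) ≤
          2 * B ^ ((finrank ℚ K : ℝ) * r * (r + 1)) * Real.exp (-√(Real.log B))) ∧
      -- for all number fields `k ⊇ K` and all points of degree at most `2 r + 1` over `K`
      ∀ (k : Type) [Field k] [NumberField k] [Algebra K k] (q : ℕ) (a : Fin q → k), 0 < q →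
        Function.Injective a → (∀ j, (minpoly K (a j)).natDegree ≤ 2 * r + 1) →
        -- for all coordinates on the line
        ∀ g : Matrix (Fin 2) (Fin 2) K, g.det ≠ 0 →
        -- for all smooth curves over `k`, finite over the `t`-line, and all divisors
        ∀ (A : Type) [CommRing A] [IsDedekindDomain A] [Algebra k A] [Algebra k[X] A]
          [IsScalarTower k k[X] A] [Module.Finite k[X] A] [FaithfulSMul k[X] A]
          (u : Fin q → ℕ) (y : ∀ j, Fin (u j) → A) (F : Fin q → Ideal A), (∀ j, F j ≠ ⊥) →
          (∀ j l, ∀ f ∈ F j, y j l * f ∈ fibre k A (a j)) →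
        ∀ (S : Finset (HeightOneSpectrum (𝓞 k))) (ε : ℝ), 0 < ε → ∃ c : ℝ,
          -- for all points `P` above a point of degree `r` not in `E`, with values in any field `L`
          ∀ (L : Type) [Field L] [NumberField L] [Algebra K L] [Algebra k L]
            [IsScalarTower K k L] (P : A →ₐ[k] L),
            algebraMap K L (g 1 0) * P (coord k A) + algebraMap K L (g 1 1) ≠ 0 →
            (minpoly K (moebius g (P (coord k A)))).natDegree = r →
            minpoly K (moebius g (P (coord k A))) ∉ E →
            (∀ j, P (coord k A) ≠ algebraMap k L (a j)) →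
            (degree k F - ε) * height (P (coord k A)) + logDiscOf k (P (coord k A)) ≤
              truncated S a u y P + logDisc L + c :=
  main Pool.Agent.N753.DR.vkg K r hr

end Pool.Agent.Results.MP_44a246_nt.AlgebraicBranchPoints
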