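import Mathlib
import Pool.Agent.N752.HY.Univ
import Pool.Agent.N752.HY.DegSum
import Pool.Agent.N752.HY.Rep2
import Pool.Agent.N752.HY.Pts
import Pool.Agent.N752.HY.Low2
import Pool.Agent.N752.HY.Fac
import Pool.Agent.N752.HY.Deg2

/-!
# Vojta's conjecture with truncated counting function for the points of degree `r` of projective
# spaces: one exceptional set of density zero for all reduced divisors

Let `k` be a number field, `r ≥ 1` and `n = r [k : ℚ] ≥ 2`. We consider all points `x` of `ℙ^m` over
`ℂ` whose field of definition `k(x)` has degree `r` over `k`, and count them by their height.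

Let `D` be ANY reduced divisor of `ℙ^m` over `k`, given as a sum of divisors `D_j : F_j = 0`
(`1 ≤ j ≤ q`), `F_j` a form of degree `κ_j` over `k`, such that the product of the `F_j` is
squarefree. The singularities of `D` are arbitrary and the `D_j` may be reducible. Let `w_j = κ_j` if
`κ_j ≤ 2` and `w_j = 1` if `κ_j ≥ 3`. On `ℙ^m` we have `h_{K + D} = (∑ κ_j - m - 1) h`, so that the
inequality of the conjecture is
`(∑ κ_j - m - 1 - ε) h(P) ≤ N_S^{(1)}(D, P) + d_{k(P)/k} + O(1)`.

We prove: if `m ≥ n + 1` (or `2 α < m` and `r ≤ m + 1`, if there are `O(Δ ^ α)` number fields of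
degree `n` and discriminant at most `Δ`), then there is ONE set `E₀` of points, of density zero among
the points of degree `r` whose coordinates span a vector space of dimension `r` over `k` (this holds
for all points if `r ≤ 2`), such that for ALL such divisors `D`, ALL `q` and ALL `0 ≤ θ < ∑ w_j`
`θ h(x) ≤ N_S^{(1)}(D, x) + d(L) - d(k(x)) + ∑_{p ∈ S} log p`
for ALL these points `x` outside of `E₀` with `h(x) > T`, `T` depending on `D` and `θ`, ALL number
fields `L ⊇ k(x)` and ALL finite sets `S` of primes; here `N_S^{(1)}(D, x)` and `d(L)` are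
the truncated counting function and the logarithmic discriminant of `x` as a point over `L`. So
Vojta's inequality is true if `∑ (κ_j - w_j) ≤ m + 1`, in particular if all `D_j` are hyperplanes or
quadrics. If `m` is large (see below) `E₀` and the points whose coordinates do not span a space of
dimension `r` have density zero among ALL points of degree `r`.

More generally, let `e_j ≥ 1` be integers and `J` a set of indices. If the intersection numbers of `x`
and `D_j` at the primes of `L` not above `S` are divisible by `e_j` (for all `j`; that is, `x` comes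
from an integral point over `L` of the root stack of orders `e_j`), then we may restrict the truncated
counting function to the `D_j`, `j ∈ J`, if we replace `θ h(x)` by
`(θ - ∑_{j ∉ J} κ_j / e_j) h(x) + ∑_{j ∉ J} m_S(D_j, x) / e_j`,
`m_S` the proximity function. This gives Vojta's inequality, `d(L)` included, for the points above
the points `x ∉ E₀` on all coverings `X` of `ℙ^m` which are étale outside of `D`: take for `L` the
field of definition of the point of `X`; and if the ramification index is `e_j` everywhere above `D_j`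
then the boundary divisor on `X` may be any union of the parts above the `D_j`, `j ∈ J`, for example
empty. Finally we may add to the left hand side `Λ` times the heights relative to ideals
`(F'_l, G'_l)` of codimension two (`Λ` as large as we like). On a smooth variety `X` birational to
`ℙ^m`, for example an embedded resolution of `D`, the heights of the divisors contracted in `ℙ^m` are
bounded by multiples of such heights, so that we obtain Vojta's inequality on all these `X`.

Proof. For the points over one field `K` the inequality with constants depending on `K` outside a set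
with a power saving is a starting result (`BirationalToProjectiveSpace`); `D` is decomposed over `K`.
The number of the points of height at most `log B` whose coordinates span `K` over `k` is at most
`C |disc K| ^ (- m / 2 + δ) B ^ (n (m + 1))` with `C` independent of `K` (geometry of numbers, balanced
representatives), so that the fields of large discriminant contribute little: the points of one
field are a positive proportion of all. The exceptional sets of the countably many divisors are
combined into one. Over `L` the inequality follows from the product formula and the lower bound for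
the different at ramified primes, with no constants at all.
-/

set_option autoImplicit false

namespace Pool.Agent.Results.MP_44a246_nt.AllDivisorsDegreeR

open NumberField IsDedekindDomain Module MvPolynomial
open scoped LinearAlgebra.Projectivization
open Pool.Agent.Results.MP_44a246_nt.BoundedDegreeHyperplanes (height toC fieldOf alpha)
open Pool.Agent.N752.SU (spanDim Full DensityZero full_upper full_mono)
open Pool.Agent.N752.HY
open Pool.Agent.R366.NF (idealHeight)

theorem s_pts : S_PTS := Pool.Agent.N752.HY.Pts.t_PTS Pool.Agent.N752.HY.Rep2.t_REP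

theorem s_deg : S_DEG := Pool.Agent.N752.HY.Deg2.t_DEG Pool.Agent.N752.HY.Rep2.t_REP

theorem s_low : S_LOW := Pool.Agent.N752.HY.Low2.t_LOW

/-- the exceptional set among all points of degree `r` -/
lemma dens_all (k : IntermediateField ℚ ℂ) [NumberField k] {m : ℕ} (hm : 1 ≤ m) (r n : ℕ)
    (hn : n = r * finrank ℚ k) (hn2 : 2 ≤ n) (hr : 1 ≤ r) (hrm : r ≤ m + 1) {α : ℝ}
    (hα1 : 1 ≤ α) (hF : Pool.Agent.W223.VD.FieldExp n α) (hmα : 2 * α < m)
    {E₀ : Set (ℙ ℂ (Fin (m + 1) → ℂ))} (hE : DensityZero (Full k m r) E₀)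
    (hcond : r ≤ 2 ∨ (r : ℝ) * (r - 1) * (2 * α + 1) + r ≤ m + 1) :
    DensityZero (All k m r) (E₀ ∪ {P | spanDim k P ≠ r}) := by
  obtain ⟨C₃, hC₃⟩ := full_upper k hm r n hn hn2 hα1 hF hmα.le 1 one_pos
  have hfin : ∀ T, (Full k m r T).Finite := fun T =>
    (hC₃ (max T 0) (le_max_right _ _)).1.subset (full_mono k m r (le_max_left _ _))
  obtain ⟨c₁, T₁, hc₁, hlow⟩ := low_full s_low k hm r n hn hr hrm hfin
  obtain ⟨C, hC, hdeg⟩ := deg_count s_deg k r n hn (by omega) hr hrm
    (by linarith) hF hcond
  intro ε hε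
  obtain ⟨B₀, hB₀⟩ := hE (ε / 2) (by positivity)
  have h1 : Filter.Tendsto (fun T : ℝ => C * Real.exp (-(1 / 2 * T))) Filter.atTop
      (nhds (C * 0)) := by
    refine Filter.Tendsto.const_mul C ?_
    refine Real.tendsto_exp_neg_atTop_nhds_zero.comp ?_
    exact Filter.tendsto_id.const_mul_atTop (by norm_num)
  rw [mul_zero] at h1
  have h2 : 0 < ε / 2 * c₁ := by positivity
  obtain ⟨T₂, hT₂⟩ := Filter.eventually_atTop.1 (h1.eventually_lt_const h2)
  refine ⟨max (max B₀ T₁) (max T₂ 0), fun T hT => ?_⟩
  have hT1 : B₀ ≤ T := (le_max_left _ _).trans ((le_max_left _ _).trans hT)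
  have hT2 : T₁ ≤ T := (le_max_right _ _).trans ((le_max_left _ _).trans hT)
  have hT3 : T₂ ≤ T := (le_max_left _ _).trans ((le_max_right _ _).trans hT)
  have hT4 : 0 ≤ T := (le_max_right _ _).trans ((le_max_right _ _).trans hT)
  obtain ⟨hdf, hdc⟩ := hdeg T hT4
  have hsplit : All k m r T ⊆ Full k m r T ∪ {P | P ∈ All k m r T ∧ spanDim k P ≠ r} := by
    intro P hP
    by_cases hs : spanDim k P = r
    · obtain ⟨K, hK, h, Q, h3⟩ := hP
      exact Or.inl ⟨hs, K, hK, h, Q, h3⟩
    · exact Or.inr ⟨hP, hs⟩
  have hAfin : (All k m r T).Finite := ((hfin T).union hdf).subset hsplit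
  have hFA : Full k m r T ⊆ All k m r T := fun P hP => hP.2
  have hcount : ((Full k m r T).ncard : ℝ) ≤ ((All k m r T).ncard : ℝ) := by
    exact_mod_cast Set.ncard_le_ncard hFA hAfin
  have hsub : (E₀ ∪ {P | spanDim k P ≠ r}) ∩ All k m r T ⊆
      (E₀ ∩ Full k m r T) ∪ {P | P ∈ All k m r T ∧ spanDim k P ≠ r} := by
    rintro P ⟨hP1, hP2⟩
    by_cases hs : spanDim k P = r
    · left
      obtain ⟨K, hK, h, Q, h3⟩ := hP2
      refine ⟨?_, hs, K, hK, h, Q, h3⟩
      rcases hP1 with h4 | h4
      · exact h4
      · exact absurd hs h4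
    · exact Or.inr ⟨hP2, hs⟩
  have h3 := (Set.ncard_le_ncard hsub (((hfin T).subset Set.inter_subset_right).union hdf)).trans
    (Set.ncard_union_le _ _)
  have h4 := hB₀ T hT1
  have h5 := hlow T hT2
  have h6 := hT₂ T hT3
  set E := Real.exp (n * (m + 1) * T) with hEdef
  have hE0 : 0 < E := Real.exp_pos _
  have h7 : C * Real.exp (((n : ℝ) * (m + 1) - 1 / 2) * T) ≤ ε / 2 * c₁ * E := by
    have e : C * Real.exp (((n : ℝ) * (m + 1) - 1 / 2) * T) =
        (C * Real.exp (-(1 / 2 * T))) * E := by
      rw [hEdef, mul_assoc, ← Real.exp_add]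
      congr 2
      ring
    rw [e]
    exact mul_le_mul_of_nonneg_right h6.le hE0.le
  have h8 : (((E₀ ∪ {P | spanDim k P ≠ r}) ∩ All k m r T).ncard : ℝ) ≤
      ((E₀ ∩ Full k m r T).ncard : ℝ) +
        (({P | P ∈ All k m r T ∧ spanDim k P ≠ r}).ncard : ℝ) := by
    exact_mod_cast h3
  have h9 : ε / 2 * (c₁ * E) ≤ ε / 2 * ((Full k m r T).ncard : ℝ) :=
    mul_le_mul_of_nonneg_left h5 (by positivity)
  have h10 : ε * ((Full k m r T).ncard : ℝ) ≤ ε * ((All k m r T).ncard : ℝ) :=
    mul_le_mul_of_nonneg_left hcount hε.le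
  linarith

/-- **Vojta's conjecture with truncated counting function for almost all points of degree `r` of
projective spaces, all reduced divisors.** Let `η > 0`. There is `c₀ ≥ 1` with the following
property. Let `k ⊆ ℂ` be a number field, `m ≥ 1`, `r ≥ 1`, `n = r [k : ℚ] ≥ 2` and
`α = alpha n c₀ η`; then `2 α < m` if `m ≥ n + 1`. Suppose that `2 α < m` and `r ≤ m + 1`. There is
ONE set `E₀` of points of `ℙ^m` such that

(1) `E₀` has density zero among the points whose field of definition has degree `r` over `k` and whose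
coordinates span a space of dimension `r` over `k`; and if `r ≤ 2` or
`r (r - 1) (2 α + 1) + r ≤ m + 1` then `E₀` and the points whose coordinates do not span a space of
dimension `r` have density zero among ALL points of degree `r` over `k`;

(2) for ALL finite families of forms `F_j` over `k` in `m + 1` variables, of degrees `κ_j`, with
squarefree product, ALL finite families of pairs of forms `F'_l, G'_l` over `k`, `F'_l` irreducible
over `ℂ` and not a divisor of `G'_l`, ALL natural numbers `Λ` and ALL `0 ≤ θ < ∑ w_j`, where `w_j = κ_j`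
if `κ_j ≤ 2` and `w_j = 1` otherwise, there is `T` such that for ALL points `x ∉ E₀` of degree `r` over
`k` whose coordinates span a space of dimension `r`, with `h(x) > T`: no `F_j(x)` is zero, and for ALL
number fields `L ⊇ K = k(x)`, ALL finite sets `S` of primes, ALL integers `e_j ≥ 1` which divide the
intersection numbers of `x` and `F_j = 0` at the primes of `L` not above `S` and ALL sets `J` of indices
`(θ - ∑_{j ∉ J} κ_j / e_j) h(x) + ∑_{j ∉ J} m_S(F_j, x) / e_j + Λ ∑_l h_{(F'_l, G'_l)}(x)`
`  ≤ N_S^{(1)}(∑_{j ∈ J} D_j, x) + d(L) - d(K) + ∑_{p ∈ S} log p`. -/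
theorem result : ∀ η : ℝ, 0 < η → ∃ c₀ : ℝ, 1 ≤ c₀ ∧
    ∀ (k : IntermediateField ℚ ℂ) [NumberField k] (m r n : ℕ), 1 ≤ m → 1 ≤ r →
      n = r * finrank ℚ k → 2 ≤ n →
      (n + 1 ≤ m → 2 * alpha n c₀ η < m) ∧
      (2 * alpha n c₀ η < m → r ≤ m + 1 →
        ∃ E₀ : Set (ℙ ℂ (Fin (m + 1) → ℂ)), DensityZero (Full k m r) E₀ ∧
          ((r ≤ 2 ∨ (r : ℝ) * (r - 1) * (2 * alpha n c₀ η + 1) + r ≤ m + 1) →
            DensityZero (All k m r) (E₀ ∪ {P | spanDim k P ≠ r})) ∧
          ∀ (q t : ℕ) (F : Fin q → MvPolynomial (Fin (m + 1)) (𝓞 k)) (κ : Fin q → ℕ)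
            (F' G' : Fin t → MvPolynomial (Fin (m + 1)) (𝓞 k)) (κ' ε' : Fin t → ℕ),
            (∀ j, (F j).IsHomogeneous (κ j)) → Squarefree (∏ j, cx (F j)) →
            (∀ l, (F' l).IsHomogeneous (κ' l)) → (∀ l, (G' l).IsHomogeneous (ε' l)) →
            (∀ l, Irreducible (cx (F' l))) → (∀ l, ¬ cx (F' l) ∣ cx (G' l)) →
            ∀ (Λ : ℕ) (θ : ℝ), 0 ≤ θ → θ < ∑ j, (wt (κ j) : ℝ) → ∃ T : ℝ,
            ∀ (K : IntermediateField ℚ ℂ) (_ : NumberField K) (h : k ≤ K)
              (Q : ℙ K (Fin (m + 1) → K)), fieldOf k (toC Q) = K →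
              finrank ℚ K = r * finrank ℚ k → spanDim k (toC Q) = r → toC Q ∉ E₀ →
              T < height Q →
              (∀ j, aeval Q.rep (upK h (F j)) ≠ 0) ∧
              ∀ (L : Type) (_ : Field L) (_ : NumberField L) (_ : Algebra K L) (S : Finset ℕ)
                (e : Fin q → ℕ) (J : Finset (Fin q)), (∀ p ∈ S, p.Prime) → (∀ i, 1 ≤ e i) →
                Integral L S (fun j => upK h (F j)) κ e Q.rep →
                (θ - ∑ i ∈ Jᶜ, (κ i : ℝ) / e i) * height Q +
                    ∑ i ∈ Jᶜ, 1 / (e i : ℝ) * prox L S (upK h (F i)) (κ i) Q.rep +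
                    Λ * ∑ l, idealHeight (upK h (F' l)) (upK h (G' l)) (κ' l) (ε' l) Q.rep /
                      finrank ℚ K ≤
                  cnt L S (fun j => upK h (F j)) κ J Q.rep + (ldisc L - ldisc K) +
                    ∑ p ∈ S, Real.log p) := by
  intro η hη
  obtain ⟨c₀, hc₀, hα⟩ := Pool.Agent.W223.VD.Points.alpha_admissible hη
  refine ⟨c₀, hc₀, ?_⟩
  intro k _ m r n hm hr hn hn2
  obtain ⟨hα1, hF⟩ := hα n hn2
  refine ⟨fun hmn => Pool.Agent.N752.SU.alpha_lt hn2 hmn _ _, fun hmα hrm => ?_⟩
  obtain ⟨E₀, hE₀, hall⟩ := universal s_pts s_low Pool.Agent.N752.HY.Fac.t_FAC k hm r n hn hn2 hr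
    hrm hα1 hF hmα
  refine ⟨E₀, hE₀, fun hcond => dens_all k hm r n hn hn2 hr hrm hα1 hF hmα hE₀ hcond, ?_⟩
  intro q t F κ F' G' κ' ε' h1 h2 h3 h4 h5 h6 Λ θ hθ0 hθ
  obtain ⟨T, hT⟩ := hall q t F κ F' G' κ' ε' ⟨h1, h2, h3, h4, h5, h6⟩ Λ θ hθ0 hθ
  refine ⟨T, fun K hK h Q hf hd hs hQE hTQ => ?_⟩
  obtain ⟨h7, h8⟩ := hT K hK h Q hf hQE hTQ
  refine ⟨h7, fun L i1 i2 i3 S e J hS he hint => ?_⟩
  have h9 := Pool.Agent.N752.HY.Ext.t_EXT K inferInstance inferInstance L i1 i2 i3 m q
    (fun j => upK h (F j)) κ Q.rep S e J (fun j => (h1 j).map _) Q.rep_nonzero h7 hS he hint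
  rw [hgt_eq] at h8 h9
  have h10 : (Λ : ℝ) * ∑ l, idealHeight (upK h (F' l)) (upK h (G' l)) (κ' l) (ε' l) Q.rep /
      finrank ℚ K = Λ * ((∑ l, idealHeight (upK h (F' l)) (upK h (G' l)) (κ' l) (ε' l) Q.rep) /
        finrank ℚ K) := by
    rw [Finset.sum_div]
  rw [h10]
  have h11 : (θ - ∑ i ∈ Jᶜ, (κ i : ℝ) / e i) * height Q =
      θ * height Q - (∑ i ∈ Jᶜ, (κ i : ℝ) / e i) * height Q := by ring
  rw [h11]
  linarith

end Pool.Agent.Results.MP_44a246_nt.AllDivisorsDegreeR
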