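import Mathlib
import Pool.Agent.N906.KG.AllN

/-!
# The `n`-term case of Vojta's conjecture with truncated counting function, over all number fields:
# the exact size of the sets of the points with small counting function, up to the second order term

`K` is a number field of degree `d`, `n ≥ 3`, `X` the hyperplane `z_1 + ... + z_n = 0`, `D` the divisor
`z_1 ... z_n = 0` on `X`, `S` a finite set of primes, `0 < κ < 1/3`, `c` real. For every form `G` not vanishing
identically on `X` the number `V(B)` of the points `P ∈ X(K)` off `D` and off `G = 0`, of height at most `B`, with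
`N_S^(1)(D, P) ≤ (n - κ) h(P) + c` satisfies

  `log V(B) = d (n - 1 - κ) log B + (C(n) (κ d)^((n-2)/(n-1)) + o(1)) (log B / log log B)^((n-2)/(n-1))`,

`C(n) = ((n-1)/(n-2))^((2n-3)/(n-1)) binomial(n, 2)^(1/(n-1))`, and the same holds for the points without
vanishing subsum.
-/

set_option autoImplicit false

namespace Pool.Agent.Results.MP_44a246_nt.ManyTermSecondOrder

open NumberField IsDedekindDomain Filter Topology

section

variable {K : Type} [Field K] [NumberField K]

/-- the absolute logarithmic height of a point (`Height.logHeight` is relative to `K`) -/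
noncomputable def height {n : ℕ} (P : Projectivization K (Fin n → K)) : ℝ :=
  Height.logHeight P.rep / (Module.finrank ℚ K : ℝ)

/-- the truncated counting function `N_S^(1)(D, P)`, `D = [z_1 ... z_n = 0]`: the sum of `log N(v) / [K : ℚ]` over the
primes `v ∉ S` with positive local height for `D`, that is, such that not all `|z_i|_v` are equal -/
noncomputable def truncated {n : ℕ} (S : Finset (HeightOneSpectrum (𝓞 K)))
    (P : Projectivization K (Fin n → K)) : ℝ :=
  (∑ᶠ (v : HeightOneSpectrum (𝓞 K))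
      (_ : v ∉ S ∧ ∃ i j, FinitePlace.mk v (P.rep i) ≠ FinitePlace.mk v (P.rep j)),
    Real.log (Ideal.absNorm v.asIdeal : ℝ)) / (Module.finrank ℚ K : ℝ)

/-- the points `(z_1 : ... : z_n)` with `∑ z_i = 0`, `z_i ≠ 0`, `G(z) ≠ 0`, of height at most `B`, with
`N_S^(1)(D, P) ≤ (n - κ) h(P) + c` -/
def Points {n : ℕ} (S : Finset (HeightOneSpectrum (𝓞 K))) (G : MvPolynomial (Fin n) K)
    (κ c B : ℝ) : Set (Projectivization K (Fin n → K)) :=
  {P | ∑ i, P.rep i = 0 ∧ (∀ i, P.rep i ≠ 0) ∧ MvPolynomial.eval P.rep G ≠ 0 ∧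
    Real.exp (height P) ≤ B ∧ truncated S P ≤ ((n : ℝ) - κ) * height P + c}

/-- those without vanishing subsum -/
def Nondegenerate {n : ℕ} (S : Finset (HeightOneSpectrum (𝓞 K))) (G : MvPolynomial (Fin n) K)
    (κ c B : ℝ) : Set (Projectivization K (Fin n → K)) :=
  {P | P ∈ Points S G κ c B ∧
    ∀ I : Finset (Fin n), I.Nonempty → I ≠ Finset.univ → ∑ i ∈ I, P.rep i ≠ 0}

end

/-- the constant `C(n)` -/
noncomputable def constant (n : ℕ) : ℝ :=
  (((n : ℝ) - 1) / (n - 2)) ^ ((2 * (n : ℝ) - 3) / (n - 1)) * (n.choose 2 : ℝ) ^ (1 / ((n : ℝ) - 1))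

theorem log_nat_mono {a b : ℕ} (h : a ≤ b) : Real.log (a : ℝ) ≤ Real.log (b : ℝ) := by
  rcases Nat.eq_zero_or_pos a with rfl | ha
  · rw [Nat.cast_zero, Real.log_zero]
    exact Real.log_natCast_nonneg b
  · exact Real.log_le_log (by exact_mod_cast ha) (by exact_mod_cast h)

/-- sets between two families with the same asymptotics -/
theorem squeeze {α : Type} {U V W : ℝ → Set α} (h1 : ∀ x, U x ⊆ V x) (h2 : ∀ x, V x ⊆ W x)
    (hfin : ∀ x, (W x).Finite) {m s : ℝ → ℝ} (hs : ∀ᶠ x in atTop, 0 ≤ s x) {L : ℝ}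
    (hU : Tendsto (fun x : ℝ => (Real.log ((U x).ncard : ℝ) - m x) / s x) atTop (𝓝 L))
    (hW : Tendsto (fun x : ℝ => (Real.log ((W x).ncard : ℝ) - m x) / s x) atTop (𝓝 L)) :
    Tendsto (fun x : ℝ => (Real.log ((V x).ncard : ℝ) - m x) / s x) atTop (𝓝 L) := by
  refine tendsto_of_tendsto_of_tendsto_of_le_of_le' hU hW ?_ ?_
  · filter_upwards [hs] with x hx
    have := log_nat_mono (Set.ncard_le_ncard (h1 x) ((hfin x).subset (h2 x)))
    exact div_le_div_of_nonneg_right (by linarith) hx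
  · filter_upwards [hs] with x hx
    have := log_nat_mono (Set.ncard_le_ncard (h2 x) (hfin x))
    exact div_le_div_of_nonneg_right (by linarith) hx

theorem scale_nonneg (ρ : ℝ) :
    ∀ᶠ B : ℝ in atTop, 0 ≤ (Real.log B / Real.log (Real.log B)) ^ ρ := by
  filter_upwards [eventually_ge_atTop (Real.exp 1)] with B hB
  have h1 : 1 ≤ Real.log B := by
    rw [Real.le_log_iff_exp_le ((Real.exp_pos 1).trans_le hB)]
    exact hB
  exact Real.rpow_nonneg (div_nonneg (by linarith) (Real.log_nonneg h1)) _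

open Pool.Agent.N906.KG in
/-- comparison of the counting functions for `S` and without `S` -/
theorem truncated_bounds {K : Type} [Field K] [NumberField K]
    (S : Finset (HeightOneSpectrum (𝓞 K))) {n : ℕ} (P : Projectivization K (Fin n → K))
    (hP : ∀ i, P.rep i ≠ 0) :
    truncated S P ≤ radP P ∧ radP P ≤ truncated S P +
      (∑ v ∈ S, Real.log (Ideal.absNorm v.asIdeal : ℝ)) / (Module.finrank ℚ K : ℝ) := by
  classical
  have hd : (0 : ℝ) < Module.finrank ℚ K := by
    exact_mod_cast (Module.finrank_pos (R := ℚ) (M := K))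
  have hlog : ∀ v : HeightOneSpectrum (𝓞 K), 0 ≤ Real.log (Ideal.absNorm v.asIdeal : ℝ) :=
    fun v => Real.log_natCast_nonneg _
  -- the set of the primes is finite
  have hone : ∀ i, {v : HeightOneSpectrum (𝓞 K) | FinitePlace.mk v (P.rep i) ≠ 1}.Finite := by
    intro i
    exact Pool.Agent.H691R3.fv_support_finite (hP i)
  set A : Set (HeightOneSpectrum (𝓞 K)) :=
    {v | ∃ i j, FinitePlace.mk v (P.rep i) ≠ FinitePlace.mk v (P.rep j)} with hA
  have hAfin : A.Finite := by
    refine (Set.finite_iUnion hone).subset fun v hv => ?_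
    obtain ⟨i, j, hij⟩ := hv
    rw [Set.mem_iUnion]
    by_contra hcon
    push Not at hcon
    have h1 := hcon i
    have h2 := hcon j
    simp only [Set.mem_ofPred_eq, not_not] at h1 h2
    exact hij (h1.trans h2.symm)
  have e1 : radP P = (∑ v ∈ hAfin.toFinset, Real.log (Ideal.absNorm v.asIdeal : ℝ)) /
      (Module.finrank ℚ K : ℝ) := by
    unfold radP
    congr 1
    have h1 := finsum_mem_eq_finite_toFinset_sum
      (fun v : HeightOneSpectrum (𝓞 K) => Real.log (Ideal.absNorm v.asIdeal : ℝ)) hAfin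
    refine Eq.trans ?_ h1
    rfl
  have hBfin : {v : HeightOneSpectrum (𝓞 K) | v ∉ S ∧ v ∈ A}.Finite :=
    hAfin.subset fun v hv => hv.2
  have e2 : truncated S P = (∑ v ∈ hAfin.toFinset \ S, Real.log (Ideal.absNorm v.asIdeal : ℝ)) /
      (Module.finrank ℚ K : ℝ) := by
    unfold truncated
    congr 1
    have h1 := finsum_mem_eq_finite_toFinset_sum
      (fun v : HeightOneSpectrum (𝓞 K) => Real.log (Ideal.absNorm v.asIdeal : ℝ)) hBfin
    refine (Eq.trans ?_ h1).trans ?_
    · rfl
    · refine Finset.sum_congr ?_ fun _ _ => rfl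
      ext v
      simp [and_comm]
  have e3 := Finset.sum_sdiff_eq_sub (f := fun v : HeightOneSpectrum (𝓞 K) =>
    Real.log (Ideal.absNorm v.asIdeal : ℝ)) (Finset.inter_subset_left (s₁ := hAfin.toFinset)
      (s₂ := S))
  have e4 : hAfin.toFinset \ (hAfin.toFinset ∩ S) = hAfin.toFinset \ S := by
    ext v
    simp
  rw [e4] at e3
  have h5 : 0 ≤ ∑ v ∈ hAfin.toFinset ∩ S, Real.log (Ideal.absNorm v.asIdeal : ℝ) :=
    Finset.sum_nonneg fun v _ => hlog v
  have h6 : ∑ v ∈ hAfin.toFinset ∩ S, Real.log (Ideal.absNorm v.asIdeal : ℝ) ≤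
      ∑ v ∈ S, Real.log (Ideal.absNorm v.asIdeal : ℝ) :=
    Finset.sum_le_sum_of_subset_of_nonneg Finset.inter_subset_right fun v _ _ => hlog v
  rw [e1, e2, ← add_div]
  exact ⟨div_le_div_of_nonneg_right (by linarith) hd.le,
    div_le_div_of_nonneg_right (by linarith) hd.le⟩

open Pool.Agent.N906.KG in
/-- **Theorem.** Let `K` be a number field of degree `d`, `n ≥ 3`, `S` a finite set of primes, `G` a form of degree
`D` in `n` variables over `K` which does not vanish identically on the hyperplane `∑ z_i = 0`, `0 < κ < 1/3` and `c` real.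
The number `V(B)` of the points of the hyperplane over `K` off `z_1 ... z_n = 0` and off `G = 0`, of height at most `B`,
with `N_S^(1)(D, P) ≤ (n - κ) h(P) + c` is finite, and
`(log V(B) - d (n - 1 - κ) log B) / (log B / log log B)^((n-2)/(n-1))` tends to `C(n) (κ d)^((n-2)/(n-1))`. The same holds
for those of these points for which no proper subsum of the `z_i` vanishes. -/
theorem result : ∀ (K : Type) [Field K] [NumberField K] (n D : ℕ)
    (S : Finset (HeightOneSpectrum (𝓞 K))) (G : MvPolynomial (Fin n) K) (κ c : ℝ),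
    3 ≤ n → G.IsHomogeneous D → (∃ z : Fin n → K, ∑ i, z i = 0 ∧ MvPolynomial.eval z G ≠ 0) →
    0 < κ → κ < 1 / 3 →
    (∀ B : ℝ, (Points S G κ c B).Finite) ∧
    Tendsto (fun B : ℝ => (Real.log ((Points S G κ c B).ncard : ℝ) -
        Module.finrank ℚ K * ((n : ℝ) - 1 - κ) * Real.log B) /
      (Real.log B / Real.log (Real.log B)) ^ (((n : ℝ) - 2) / (n - 1))) atTop
      (𝓝 (constant n * (κ * Module.finrank ℚ K) ^ (((n : ℝ) - 2) / (n - 1)))) ∧
    Tendsto (fun B : ℝ => (Real.log ((Nondegenerate S G κ c B).ncard : ℝ) -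
        Module.finrank ℚ K * ((n : ℝ) - 1 - κ) * Real.log B) /
      (Real.log B / Real.log (Real.log B)) ^ (((n : ℝ) - 2) / (n - 1))) atTop
      (𝓝 (constant n * (κ * Module.finrank ℚ K) ^ (((n : ℝ) - 2) / (n - 1)))) := by
  intro K _ _ n D S G κ c hn hG hz hκ0 hκ1
  set E : ℝ := (∑ v ∈ S, Real.log (Ideal.absNorm v.asIdeal : ℝ)) / (Module.finrank ℚ K : ℝ) with hE
  obtain ⟨f1, a1, b1⟩ := Pool.Agent.N906.KG.NTerm.finn K n D G κ c hn hG hz hκ0 hκ1
  obtain ⟨f2, a2, b2⟩ := Pool.Agent.N906.KG.NTerm.finn K n D G κ (c + E) hn hG hz hκ0 hκ1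
  have s1 : ∀ B, NVall G κ c B ⊆ Points S G κ c B := by
    rintro B P ⟨h1, h2, h3, h4, h5⟩
    exact ⟨h1, h2, h3, h4, ((truncated_bounds S P h2).1).trans h5⟩
  have s2 : ∀ B, Points S G κ c B ⊆ NVall G κ (c + E) B := by
    rintro B P ⟨h1, h2, h3, h4, h5⟩
    refine ⟨h1, h2, h3, h4, ((truncated_bounds S P h2).2).trans ?_⟩
    rw [← hE]
    have h6 : truncated S P ≤ ((n : ℝ) - κ) * hh P + c := h5
    linarith
  have s3 : ∀ B, NVns G κ c B ⊆ Nondegenerate S G κ c B := fun B P hP => ⟨s1 B hP.1, hP.2⟩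
  have s4 : ∀ B, Nondegenerate S G κ c B ⊆ NVns G κ (c + E) B := fun B P hP => ⟨s2 B hP.1, hP.2⟩
  refine ⟨fun B => (f2 B).subset (s2 B), ?_, ?_⟩
  · exact squeeze s1 s2 f2 (scale_nonneg _) a1 a2
  · exact squeeze s3 s4 (fun B => (f2 B).subset fun P hP => hP.1) (scale_nonneg _) b1 b2

end Pool.Agent.Results.MP_44a246_nt.ManyTermSecondOrder
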