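import Mathlib
import Pool.Agent.N131.FM.Cpair6

/-!
# MP_44a246_nt: Vojta's inequality over function fields, with the truncated counting function with
# the coefficient one, for points with few osculation places or with highly ramified zeros

Let `k` be an algebraically closed field of characteristic zero, `F` a function field of one
variable over `k`, `X` a projective variety of dimension `w > 0` over `F` (possibly singular, possibly
not isotrivial), `D` a proper closed subset of `X`, and `S` a finite set of places of `F`. Let
`ω_0, …, ω_t` be `N`-fold pluricanonical forms with at most logarithmic poles along `D` (sections of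
`N (K_X + D)` if `X` is smooth and `D` is a divisor with normal crossings), not all zero, and let
`B` be forms which define the rational map `(ω_0 : … : ω_t)`. Let `R = (R_0 : … : R_ν)` be a rational
map of `X` to a projective space which is generically finite onto its image, and let `D₀` be the
divisor `R_0 ⋯ R_ν = 0` on `X`. For every `ε > 0` we prove

`h(B(x)) ≤ N N^(1)_S(D, x) + ε h(x) + C (d(x) + min (ρ_S(x), N_{S,<μ}(D₀, x)) + 1)`

for **all** points `x` of `X` over all finite extensions `L` of `F` which are not contained in a proper
closed subset `A = 0`; here `A`, `C` and `μ` do not depend on `x` and `L`, the degree of `L` over `F` is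
not bounded, `d` is the logarithmic discriminant, `N^(1)_S` is the truncated counting function, and
`N_{S,<μ}(D₀, x)` is the number of the places, not over `S`, at which `x` meets `D₀` with a multiplicity
less than `μ`, divided by `[L : F]`.
If `N (K_X + D)` has no base points, then `h(B(x)) = N h_{K_X + D}(x) + O(1)`, and, up to the last
term, this is the inequality of Vojta's conjecture in all dimensions, with the conjectured coefficients
of the height and of the truncated counting function.

The number `ρ_S(x)` is the number of the osculation places, divided by `[L : F]`: let `V ⊆ L` be the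
linear span over `k` of the coordinates `R_i(x)`, of dimension `n`; a place `P` of `L`, not over `S`,
is counted (once) if there are a nonzero `v` in `V` and a `u` in `V` of smallest order at `P` with
`ord_P v ≥ ord_P u + n`. (For general `P` the elements of `V` have the orders
`ord_P u, …, ord_P u + n - 1`.) These are the zeros of the Wronskian determinant of a basis of `V`,
relative to the smallest order. The number `N_{S,<μ}(D₀, x)` vanishes if `x` is integral with respect
to `S` and `D₀`, or if `x` meets `D₀` only with multiplicities `≥ μ`: in particular, Vojta's inequality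
(with a constant multiple of `d(x)`) holds for all these points, for all closed subsets `D` of `X`.
-/

set_option autoImplicit false

namespace Pool.Agent.Results.MP_44a246_nt.SharpTruncated

open FF MvPolynomial
open Pool.Agent.W603.PV (disc under)
open Pool.Agent.W602.GT (IsForm coords Divisorial IsPluri RegAt LogAt LogGeneralType)

section fields

variable {k F : Type} [Field k] [IsAlgClosed k] [CharZero k] [Field F] [Algebra k F] [IsFF k F]

/-- A finite extension of `F`. -/
abbrev Ext (F : Type) [Field F] : Type := IntermediateField F (AlgebraicClosure F)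

instance (L : Ext F) [FiniteDimensional F L] : IsFF k L := N131.FV.isFF_inter L

end fields

section points

variable (k : Type) {F : Type} [Field k] [Field F] [Algebra k F] {L : Ext F}

/-- The minimum of the orders of the nonzero coordinates of `x` at the place `P`. -/
noncomputable def minOrd {k F : Type} [Field k] [Field F] [Algebra k F] {L : Ext F} {n : ℕ}
    (P : Place k L) (x : Fin (n + 1) → L) : ℤ :=
  ⨅ c : {c // x c ≠ 0}, P.ord (x c.1)

/-- The height of the point with the homogeneous coordinates `x`: minus the sum over all places of
`L` of the minimum of the orders of the coordinates, divided by `[L : F]`. -/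
noncomputable def height {n : ℕ} (x : Fin (n + 1) → L) : ℝ :=
  ((-∑ᶠ P : Place k L, minOrd P x : ℤ) : ℝ) / Module.finrank F L

/-- The logarithmic discriminant of `L` over `F`: the sum over all places of `L` of the ramification
index over `F` minus one, divided by `[L : F]`. -/
noncomputable def logDisc (L : Ext F) : ℝ := (disc k F L : ℝ) / Module.finrank F L

/-- The linear system of the coordinates of `z`, over `k`. -/
noncomputable abbrev system {n : ℕ} (z : Fin (n + 1) → L) : Submodule k L :=
  Submodule.span k (Set.range z)

/-- At `P` a nonzero element of the linear system of `z` has an order which is larger than the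
smallest order by the dimension of the system, or more. -/
def Osculates {k F : Type} [Field k] [Field F] [Algebra k F] {L : Ext F} {n : ℕ}
    (P : Place k L) (z : Fin (n + 1) → L) : Prop :=
  ∃ v ∈ system k z, v ≠ 0 ∧ minOrd P z + Module.finrank k (system k z) ≤ P.ord v

/-- The local height of `x` at `P` for the set `D` of the common zeros of the forms `Q_l`, of the
degrees `q_l`, is positive: `x` reduces to a point of `D` at `P`. -/
def Meets {k F : Type} [Field k] [Field F] [Algebra k F] {L : Ext F} {M s : ℕ}
    (Q : Fin (s + 1) → MvPolynomial (Fin (M + 1)) F) (q : Fin (s + 1) → ℕ) (P : Place k L)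
    (x : Fin (M + 1) → L) : Prop :=
  ∀ l, aeval x (Q l) = 0 ∨ q l * minOrd P x < P.ord (aeval x (Q l))

end points

section counting

variable {k F : Type} [Field k] [IsAlgClosed k] [CharZero k] [Field F] [Algebra k F] [IsFF k F]
  {L : Ext F} [FiniteDimensional F L]

/-- The truncated counting function for the set `D` of the common zeros of the forms `Q_l`, of the
degrees `q_l`: the number of the places of `L` which are not over `S` and at which the local height
of `x` for `D` is positive, divided by `[L : F]`. -/
noncomputable def truncated (S : Finset (Place k F)) {M s : ℕ}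
    (Q : Fin (s + 1) → MvPolynomial (Fin (M + 1)) F) (q : Fin (s + 1) → ℕ)
    (x : Fin (M + 1) → L) : ℝ :=
  ({P : Place k L | under F P ∉ S ∧ Meets Q q P x}.ncard : ℝ) / Module.finrank F L

/-- The number of the places of `L` which are not over `S` and at which `x` meets the divisor `R = 0`,
`R` a form of the degree `d`, with a multiplicity which is less than `μ`, divided by `[L : F]`. -/
noncomputable def low (S : Finset (Place k F)) {M : ℕ} (R : MvPolynomial (Fin (M + 1)) F) (d μ : ℕ)
    (x : Fin (M + 1) → L) : ℝ :=
  ({P : Place k L | under F P ∉ S ∧ d * minOrd P x < P.ord (aeval x R) ∧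
    P.ord (aeval x R) < d * minOrd P x + μ}.ncard : ℝ) / Module.finrank F L

/-- The number of the osculation places which are not over `S`, divided by `[L : F]`. -/
noncomputable def osculation (S : Finset (Place k F)) {n : ℕ} (z : Fin (n + 1) → L) : ℝ :=
  ({P : Place k L | under F P ∉ S ∧ Osculates P z}.ncard : ℝ) / Module.finrank F L

end counting

section var

variable {F : Type} [Field F] {M : ℕ} {K : Type} [Field K] [Algebra F K]

/-- `K` is the function field, `w` the dimension and `y` the generic point, in homogeneous
coordinates, of a closed subvariety of the projective space of dimension `M` over `F`. A form `G`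
vanishes on the variety if and only if `G(y) = 0`. -/
structure Variety (F K : Type) [Field F] [Field K] [Algebra F K] (w : ℕ) (y : Fin (M + 1) → K) :
    Prop where
  ne : ∃ i, y i ≠ 0
  gen : coords F y = ⊤
  dim : Algebra.trdeg F K = w

/-- `x` is a point over `L` of the variety with the generic point `y`. -/
structure Point (y : Fin (M + 1) → K) {L : Ext F} (x : Fin (M + 1) → L) : Prop where
  ne : x ≠ 0
  mem : ∀ G : MvPolynomial (Fin (M + 1)) F, IsForm G → aeval y G = 0 → aeval x G = 0

/-- The forms `R` of the degree `e`, none of which vanishes on the variety with the generic point `y`,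
define a rational map of this variety which is generically finite onto its image. -/
structure GenFinite {ν : ℕ} (y : Fin (M + 1) → K) (e : ℕ)
    (R : Fin (ν + 1) → MvPolynomial (Fin (M + 1)) F) : Prop where
  hom : ∀ i, (R i).IsHomogeneous e
  ne : ∀ i, aeval y (R i) ≠ 0
  alg : Algebra.IsAlgebraic (IntermediateField.adjoin F
    {z | ∃ i j, z = aeval y (R i) / aeval y (R j)}) K

/-- The centre of the place `P` of the function field lies in the set of the common zeros of the
forms `Q_l`, of the degrees `q_l`, on the variety with the generic point `y`. -/
def CentreIn {s : ℕ} (Q : Fin (s + 1) → MvPolynomial (Fin (M + 1)) F) (q : Fin (s + 1) → ℕ)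
    (y : Fin (M + 1) → K) (P : Place F K) : Prop :=
  ∃ j, y j ≠ 0 ∧ (∀ i, P.Reg (y i / y j)) ∧
    ∀ l, aeval y (Q l) / y j ^ q l = 0 ∨ 1 ≤ P.ord (aeval y (Q l) / y j ^ q l)

/-- `ω_0, …, ω_t` are `N`-fold pluricanonical forms, not all zero, on the varieties with the function
field `K` of dimension `w`, with at most logarithmic poles along the set `D` of the common zeros of
the forms `Q_l`, and regular elsewhere. -/
structure LogForms {s t : ℕ} (Q : Fin (s + 1) → MvPolynomial (Fin (M + 1)) F)
    (q : Fin (s + 1) → ℕ) (y : Fin (M + 1) → K) {w : ℕ} (N : ℕ)
    (ω : Fin (t + 1) → (Fin w → Derivation F K K) → K) : Prop where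
  pluri : ∀ i, IsPluri N (ω i)
  log : ∀ P : Place F K, Divisorial w P → ∀ i, LogAt P (ω i)
  reg : ∀ P : Place F K, Divisorial w P → ¬ CentreIn Q q y P → ∀ i, RegAt P (ω i)
  ne : ∃ i D, ω i D ≠ 0

/-- The forms `B` of the degree `b` define the rational map `(ω_0 : … : ω_t)`. -/
structure MapOf {t w : ℕ} (y : Fin (M + 1) → K) (ω : Fin (t + 1) → (Fin w → Derivation F K K) → K)
    (b : ℕ) (B : Fin (t + 1) → MvPolynomial (Fin (M + 1)) F) : Prop where
  hom : ∀ i, (B i).IsHomogeneous b
  ne : ∃ i, aeval y (B i) ≠ 0
  rel : ∀ i j D, ω i D * aeval y (B j) = ω j D * aeval y (B i)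

end var

theorem GenFinite.alg' {F : Type} [Field F] {M : ℕ} {K : Type} [Field K] [Algebra F K] {ν : ℕ}
    {y : Fin (M + 1) → K} {e : ℕ} {R : Fin (ν + 1) → MvPolynomial (Fin (M + 1)) F}
    (h : GenFinite y e R) : Algebra.IsAlgebraic (IntermediateField.adjoin F
      {z | ∃ i j, aeval y (R j) ≠ 0 ∧ z = aeval y (R i) / aeval y (R j)}) K := by
  have h1 : {z | ∃ i j, aeval y (R j) ≠ 0 ∧ z = aeval y (R i) / aeval y (R j)} =
      {z | ∃ i j, z = aeval y (R i) / aeval y (R j)} := by
    ext z
    simp only [Set.mem_ofPred_eq, h.ne, ne_eq, not_false_eq_true, true_and]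
  rw [h1]
  exact h.alg

/-- Let `y` be the generic point of the projective variety `X` of dimension `w > 0` over `F`, let the
forms `R_i` of the degree `e` define a rational map of `X` to a projective space which is generically
finite onto its image, let `D₀` be the divisor `R_0 ⋯ R_ν = 0`, let `D` be the set of the common zeros
on `X` of the forms `Q_0, …, Q_s`, not all of which vanish on `X`, and let `ε > 0`. Let
`ω_0, …, ω_t` be `N`-fold pluricanonical forms on `X`, not all zero, with at most logarithmic
poles along `D`, and let `B` be forms which define the rational map `(ω_0 : … : ω_t)`. There are a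
form `A` over `F` which does not vanish on `X` and numbers `C` and `μ` such that
`h(B(x)) ≤ N N^(1)_S(D, x) + ε h(x) + C (d(L) + min (ρ_S(R(x)), N_{S,<μ}(D₀, x)) + 1)`
for all finite extensions `L` of `F` and all points `x` of `X` over `L` with `A(x) ≠ 0`. -/
theorem result {k F : Type} [Field k] [IsAlgClosed k] [CharZero k] [Field F] [Algebra k F]
    [IsFF k F] {M w e ν s N t b : ℕ} {K : Type} [Field K] [Algebra F K] {y : Fin (M + 1) → K}
    (hX : Variety F K w y) (hw : 0 < w)
    {R : Fin (ν + 1) → MvPolynomial (Fin (M + 1)) F} (hR : GenFinite y e R)
    {Q : Fin (s + 1) → MvPolynomial (Fin (M + 1)) F} {q : Fin (s + 1) → ℕ}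
    (hQ : ∀ l, (Q l).IsHomogeneous (q l)) (hQ0 : ∃ l, aeval y (Q l) ≠ 0)
    (S : Finset (Place k F)) {ω : Fin (t + 1) → (Fin w → Derivation F K K) → K}
    (hω : LogForms Q q y N ω) {B : Fin (t + 1) → MvPolynomial (Fin (M + 1)) F}
    (hB : MapOf y ω b B) {ε : ℝ} (hε : 0 < ε) :
    ∃ A : MvPolynomial (Fin (M + 1)) F, IsForm A ∧ aeval y A ≠ 0 ∧ ∃ (C : ℝ) (μ : ℕ),
      ∀ (L : Ext F) [FiniteDimensional F L] (x : Fin (M + 1) → L), Point y x → aeval x A ≠ 0 →
        height k (fun i => aeval x (B i)) ≤ N * truncated S Q q x + ε * height k x +
          C * (logDisc k L + min (osculation S fun i => aeval x (R i))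
            (low S (∏ i, R i) ((ν + 1) * e) μ x) + 1) := by
  obtain ⟨A, hA, hA0, C, μ, -, hC⟩ := N131.FM.fin1low hX.gen hX.ne hR.hom hR.ne hR.alg' hw hX.dim
    hQ hQ0 hω.pluri hω.log hω.reg hB.hom hB.rel hB.ne hω.ne S hε
  refine ⟨A, hA, hA0, C, μ, fun L _ x hx hxA => ?_⟩
  have h1 := hC L x ⟨Function.ne_iff.1 hx.ne, hx.mem⟩ hxA
  have hf : (0 : ℝ) < Module.finrank F L := by
    exact_mod_cast Module.finrank_pos (R := F) (M := L)
  unfold height logDisc truncated osculation low
  rw [div_le_iff₀ hf, min_div_div_right hf.le]
  refine le_trans h1 (le_of_eq ?_)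
  field_simp
  rfl

end Pool.Agent.Results.MP_44a246_nt.SharpTruncated
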